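import Mathlib
import Pool.Agent.Y776.ET.Main

/-!
# All failures of the elliptico-toric conjecture come from a countable set of failures

`L` is a pair of periods `ω₁, ω₂` (independent over `ℝ`), `L.lattice = ℤ ω₁ + ℤ ω₂ = Ω`, and
`℘[L]`, `L.g₂`, `L.g₃` are Mathlib's Weierstrass function and invariants. The definitions of
`ζ`, `k L` (the field `ℚ ⊗ End(ℂ / Ω)`), `T₀ = 2πi ℚ`, `P₀ L = Ω ⊗ ℚ`, `trd` (transcendence degree
over `K`), `gen L t p` (the numbers `g₂, g₃, ω₁, ω₂, η₁, η₂, t, e^t, p, ℘(p), ζ(p)`), `dimMod`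
(dimension of the span modulo a subspace) and `jInv L` (the `j`-invariant) are in
`Pool.Agent.Y776.EtDefs`.

The conjecture says that
`trdeg K(ω₁, ω₂, η₁, η₂) ≥ dim ⟨t⟩ + 4 / [k : ℚ] + 2 dim ⟨p⟩`,
`K = ℚ(g₂, g₃, t, e^t, p, ℘(p), ζ(p))`, for all tuples `t` of complex numbers and all tuples `p` of
complex numbers outside `Ω`, where `⟨t⟩` is the `ℚ`-span modulo `2πi ℚ` and `⟨p⟩` is the `k`-span
modulo `Ω ⊗ ℚ`.

The theorem: there is a countable field `F` such that every failure `(L, t, p)`, of any defect and for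
any curve, comes from a failure `(L', u, q)` at least as bad all of whose numbers lie in `F`; there are
only countably many such `(L', u, q)`. The `u_i` are rational combinations of `2πi` and the `t_j`, and
`L' = c L`, the `q_i` are `c` times elements of `Ω ⊗ ℚ + ∑ k p_j`, when `j(L) ∈ F`; when `j(L) ∉ F`
there are no points `q`, and `u` is a failure of Schanuel's conjecture.
-/

set_option autoImplicit false

open Module
open scoped PeriodPair

namespace Pool.Agent.Results.MP_8da9ea_nt.CountablyManyFailures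

open Pool.Agent.Y776.Et

/-- The inequality over the base field `K` fails by at least `m` (it is violated if `m ≥ 1`): the points
`p_i` are outside the lattice and `trdeg K(ω₁, ω₂, η₁, η₂) + m ≤ dim ⟨t⟩ + 4 / [k : ℚ] + 2 dim ⟨p⟩`. -/
def Fails (K : Type) [Field K] [Algebra K ℂ] (m : ℕ) (L : PeriodPair) {s n : ℕ} (t : Fin s → ℂ)
    (p : Fin n → ℂ) : Prop :=
  (∀ i, p i ∉ L.lattice) ∧
    trd K (gen L t p) + m ≤
      ((dimMod T₀ t + 4 / finrank ℚ (k L) + 2 * dimMod (P₀ L) p : ℕ) : Cardinal)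

/-- For every countable field `K` embedded in `ℂ` (for example `ℚ`) and every countable set `S` of
complex numbers there is a countable algebraically closed field `F` containing `S`, closed under
`exp` and under `℘`, `ζ` of all lattices with a basis in `F`, such that for every failure `(L, t, p)`
there is a failure `(L', u, q)` at least as bad with all numbers in `F`; the `u_i` are rational
combinations of `2πi` and the `t_j`. Either `j(L) ∈ F`, `L' = c L` and the `q_i` are `c` times
combinations of the `p_j` and the periods with coefficients in `k L`, or `j(L) ∉ F`, `n' = 0` and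
`trdeg K(2πi, u, e^u) + m ≤ dim ⟨u⟩` (so Schanuel's conjecture over `K` fails by `m + 1` for
`2πi, u`). -/
theorem result (K : Type) [Field K] [Algebra K ℂ] [Countable K] (S : Set ℂ) (hS : S.Countable) :
    ∃ F : Subfield ℂ, (F : Set ℂ).Countable ∧ S ⊆ F ∧ (∀ x, IsAlgebraic F x → x ∈ F) ∧
      (∀ x ∈ F, Complex.exp x ∈ F) ∧
      (∀ L : PeriodPair, L.ω₁ ∈ F → L.ω₂ ∈ F → ∀ x ∈ F, x ∉ L.lattice → ℘[L] x ∈ F ∧ ζ L x ∈ F) ∧
      ∀ (m s n : ℕ) (L : PeriodPair) (t : Fin s → ℂ) (p : Fin n → ℂ), Fails K m L t p →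
        ∃ (L' : PeriodPair) (s' n' : ℕ) (u : Fin s' → ℂ) (q : Fin n' → ℂ),
          gen L' u q ⊆ F ∧ Fails K m L' u q ∧
          (∀ i, u i ∈ Submodule.span ℚ ({2 * Real.pi * Complex.I} ∪ Set.range t)) ∧
          ((jInv L ∈ F ∧ ∃ c : ℂ, c ≠ 0 ∧ (∀ x, c * x ∈ L'.lattice ↔ x ∈ L.lattice) ∧
              ∀ i, ∃ v ∈ P₀ L ⊔ Submodule.span (k L) (Set.range p), q i = c * v) ∨
            (jInv L ∉ F ∧ n' = 0 ∧
              trd K ({2 * Real.pi * Complex.I} ∪ (Set.range u ∪ Complex.exp '' Set.range u)) + m ≤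
                ((dimMod T₀ u : ℕ) : Cardinal))) :=
  Pool.Agent.Y776.ET2.main K hS

end Pool.Agent.Results.MP_8da9ea_nt.CountablyManyFailures
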