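import Mathlib
import Pool.Agent.Y776.EtProof

/-!
# The elliptico-toric conjecture for all invariants `j` outside a countable field

`L` is a pair of periods `ω₁, ω₂` (independent over `ℝ`), `L.lattice = ℤ ω₁ + ℤ ω₂ = Ω`, and
`℘[L]`, `L.g₂`, `L.g₃` are Mathlib's Weierstrass function and invariants.

The conjecture says that
`trdeg K(ω₁, ω₂, η₁, η₂) ≥ dim ⟨t⟩ + 4 / [k : ℚ] + 2 dim ⟨p⟩`,
`K = ℚ(g₂, g₃, t, e^t, p, ℘(p), ζ(p))`, for all tuples `t` of complex numbers and all tuples `p` of
complex numbers outside `Ω`, where `⟨t⟩` is the `ℚ`-span modulo `2πi ℚ` and `⟨p⟩` is the `k`-span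
modulo `Ω ⊗ ℚ`.

The theorem: there is a countable field `F` such that for all curves with `j ∉ F` the conjecture
holds for all `n` and all `p`, whenever `s ≤ 1`, or all `t` are algebraic, or at most a plane of
rational linear combinations of `2πi, t₁, …, t_s` lies in `F`; in general the defect is at most the
defect of the combinations in `F` in Schanuel's conjecture, minus one.
-/

set_option autoImplicit false

open Module
open scoped PeriodPair

namespace Pool.Agent.Results.MP_8da9ea_nt.GenericInvariant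

open Pool.Agent.Y776.Et

/-- **Main result.** -/
theorem result (S : Set ℂ) (hS : S.Countable) : ∃ F : IntermediateField ℚ ℂ,
    (F : Set ℂ).Countable ∧ S ⊆ F ∧ (∀ x, IsAlgebraic F x → x ∈ F) ∧
    (∀ x ∈ F, Complex.exp x ∈ F) ∧
    ∀ L : PeriodPair, jInv L ∉ F →
      -- the inequality over all base fields in `F`, all tuples
      (∀ (K : Type) [Field K] [Algebra K ℂ], (∀ x : K, algebraMap K ℂ x ∈ F) →
        ∀ (s n : ℕ) (t : Fin s → ℂ) (p : Fin n → ℂ), (∀ i, p i ∉ L.lattice) →
        trd K ((inF F t : Set ℂ) ∪ Complex.exp '' (inF F t : Set ℂ)) +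
          ((dimMod T₀ t + 4 / finrank ℚ (k L) + 2 * dimMod (P₀ L) p + 1 : ℕ) : Cardinal) ≤
            trd K (gen L t p) + ((finrank ℚ (inF F t) : ℕ) : Cardinal)) ∧
      -- the conjecture for all `n` and `p`, and many `t`
      (∀ (s n : ℕ) (t : Fin s → ℂ) (p : Fin n → ℂ), (∀ i, p i ∉ L.lattice) →
        (s ≤ 1 ∨ (∀ i, IsAlgebraic ℚ (t i)) ∨ finrank ℚ (inF F t) ≤ 2) → Holds L t p) ∧
      -- the conjecture and Schanuel's conjecture
      (SchanuelOne → Conjecture L) ∧
      (L.ω₁ = 1 → (Conjecture L ↔ SchanuelOne)) :=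
  Pool.Agent.Y776.Et.main S hS

end Pool.Agent.Results.MP_8da9ea_nt.GenericInvariant
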